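import Pool.Agent.H477.O.Stm

set_option autoImplicit false

open Complex Filter Topology Metric Set MeasureTheory
open scoped ComplexConjugate

namespace Pool.Agent.H975.O

open Pool.Agent.H477.O

theorem ocr_proof : S_OCR := by
  intro a K j A R
  refine ⟨max (|R| + 1) |a| + |K| * (1 + (|R| + 1) ^ 2 + (|A| + 1) ^ 2) + (j.factorial : ℝ), ?_, ?_⟩
  · have h1 : |R| + 1 ≤ max (|R| + 1) |a| := le_max_left _ _
    have h2 : 0 ≤ |K| * (1 + (|R| + 1) ^ 2 + (|A| + 1) ^ 2) := by positivity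
    have h3 : (0 : ℝ) ≤ (j.factorial : ℝ) := by positivity
    have h4 : 0 ≤ |R| := abs_nonneg _
    linarith
  intro X M ℓ y hX hℓ z hz1 hz2
  have hR : R ≤ |R| := le_abs_self _
  have hA : A ≤ |A| := le_abs_self _
  have ha := hX.ha
  have hK := hX.hK
  have hM := hX.hM
  have hsph : ∀ w ∈ sphere z 1, ‖X w‖ ≤
      M * Real.exp (ℓ * (max (|R| + 1) |a| + |K| * (1 + (|R| + 1) ^ 2 + (|A| + 1) ^ 2))) := by
    intro w hw
    rw [mem_sphere, dist_eq_norm] at hw
    have h1 : |w.re - z.re| ≤ 1 := by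
      have := Complex.abs_re_le_norm (w - z)
      rw [Complex.sub_re, hw] at this
      exact this
    have h2 : |w.im - z.im| ≤ 1 := by
      have := Complex.abs_im_le_norm (w - z)
      rw [Complex.sub_im, hw] at this
      exact this
    have h3 : |w.re - 1 / 2| ≤ |R| + 1 := by
      rw [abs_le] at h1 hz1 ⊢
      constructor <;> linarith [h1.1, h1.2, hz1.1, hz1.2]
    have h4 : |w.im - y| ≤ |A| + 1 := by
      rw [abs_le] at h2 hz2 ⊢
      constructor <;> linarith [h2.1, h2.2, hz2.1, hz2.2]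
    have h5 := hX.up (w.re - 1 / 2) (w.im - y)
    rw [← pt_eq] at h5
    refine h5.trans (mul_le_mul_of_nonneg_left (Real.exp_le_exp.2 ?_) hM.le)
    have h6 : max |w.re - 1 / 2| a ≤ max (|R| + 1) |a| := max_le_max h3 (le_abs_self a)
    have h7 : (w.re - 1 / 2) ^ 2 ≤ (|R| + 1) ^ 2 := by
      rw [← sq_abs]
      exact pow_le_pow_left₀ (abs_nonneg _) h3 2
    have h8 : (w.im - y) ^ 2 ≤ (|A| + 1) ^ 2 := by
      rw [← sq_abs]
      exact pow_le_pow_left₀ (abs_nonneg _) h4 2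
    have h9 : K * (1 + (w.re - 1 / 2) ^ 2 + (w.im - y) ^ 2) ≤
        |K| * (1 + (|R| + 1) ^ 2 + (|A| + 1) ^ 2) := by
      refine mul_le_mul (le_abs_self K) (by linarith) (by positivity) (abs_nonneg _)
    have h10 : |K| * (1 + (|R| + 1) ^ 2 + (|A| + 1) ^ 2) ≤
        ℓ * (|K| * (1 + (|R| + 1) ^ 2 + (|A| + 1) ^ 2)) :=
      le_mul_of_one_le_left (by positivity) hℓ
    have h11 : ℓ * max |w.re - 1 / 2| a ≤ ℓ * max (|R| + 1) |a| :=
      mul_le_mul_of_nonneg_left h6 (by linarith)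
    rw [mul_add]
    linarith
  have h1 := Complex.norm_iteratedDeriv_le_of_forall_mem_sphere_norm_le (n := j) (c := z) one_pos
    (hX.diff.diffContOnCl) hsph
  refine h1.trans ?_
  rw [one_pow, div_one]
  have h2 : (j.factorial : ℝ) ≤ Real.exp (ℓ * (j.factorial : ℝ)) := by
    have e1 : (j.factorial : ℝ) ≤ ℓ * (j.factorial : ℝ) := le_mul_of_one_le_left (by positivity) hℓ
    have e2 := Real.add_one_le_exp (ℓ * (j.factorial : ℝ))
    linarith
  calc (j.factorial : ℝ) *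
        (M * Real.exp (ℓ * (max (|R| + 1) |a| + |K| * (1 + (|R| + 1) ^ 2 + (|A| + 1) ^ 2))))
      ≤ Real.exp (ℓ * (j.factorial : ℝ)) *
        (M * Real.exp (ℓ * (max (|R| + 1) |a| + |K| * (1 + (|R| + 1) ^ 2 + (|A| + 1) ^ 2)))) :=
        mul_le_mul_of_nonneg_right h2 (by positivity)
    _ = M * (Real.exp (ℓ * (max (|R| + 1) |a| + |K| * (1 + (|R| + 1) ^ 2 + (|A| + 1) ^ 2))) *
        Real.exp (ℓ * (j.factorial : ℝ))) := by ring
    _ = _ := by
        rw [← Real.exp_add]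
        congr 2
        ring

end Pool.Agent.H975.O
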